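import Mathlib

/-!
# Project PRIMES, windows half: sums over primes, pairs and triples of primes `≥ z` in short windows
-/

set_option autoImplicit false

namespace Pool.Agent.PW

open Finset

/-- `log p / p` -/
noncomputable def wp (p : ℕ) : ℝ := Real.log p / p

/-- the primes `p < N` with `z ≤ p` -/
noncomputable def PZ (z : ℝ) (N : ℕ) : Finset ℕ := (range N).filter (fun p => p.Prime ∧ z ≤ (p : ℝ))

/-- `th z a h = ∑ log p / p` over the primes `p ≥ z` in `[e ^ a, e ^ (a + h))` -/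
noncomputable def th (z a h : ℝ) : ℝ :=
  ∑ p ∈ (PZ z ⌈Real.exp (a + h)⌉₊).filter (fun p : ℕ => a ≤ Real.log p ∧ Real.log p < a + h), wp p

/-- the sum over the ordered pairs of primes `p, q ≥ z` with `p q` in `[e ^ a, e ^ (a + h))` -/
noncomputable def Th2 (z a h : ℝ) : ℝ :=
  ∑ x ∈ (PZ z ⌈Real.exp (a + h)⌉₊ ×ˢ PZ z ⌈Real.exp (a + h)⌉₊).filter
    (fun x => a ≤ Real.log x.1 + Real.log x.2 ∧ Real.log x.1 + Real.log x.2 < a + h), wp x.1 * wp x.2

/-- the sum over the ordered triples of primes `p, q, r ≥ z` with `p q r` in `[e ^ a, e ^ (a + h))` -/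
noncomputable def Th3 (z a h : ℝ) : ℝ :=
  ∑ x ∈ (PZ z ⌈Real.exp (a + h)⌉₊ ×ˢ (PZ z ⌈Real.exp (a + h)⌉₊ ×ˢ PZ z ⌈Real.exp (a + h)⌉₊)).filter
    (fun x => a ≤ Real.log x.1 + (Real.log x.2.1 + Real.log x.2.2) ∧
      Real.log x.1 + (Real.log x.2.1 + Real.log x.2.2) < a + h), wp x.1 * (wp x.2.1 * wp x.2.2)

/-- Mertens' first theorem in windows, with constant `M` -/
def Mert (M : ℝ) : Prop := ∀ u v : ℝ, 0 ≤ u → u ≤ v → |th 1 u (v - u) - (v - u)| ≤ M

end Pool.Agent.PW
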