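import Pool.Agent.Helper33.PW.TBase

/-!
# Project PRIMES, windows half: (T), triple products

`T_bound`: Selberg's formula in the windows `[e ^ a, e ^ (a + H))`, `κ X ≤ a ≤ X`, and Mertens' theorem give
`Th3 z X H = X² / 2 * th z X H + O((δ + κ) X² H)`.
-/

set_option autoImplicit false

namespace Pool.Agent.PW

open Finset

section
variable {M X κ δ z H : ℝ}

/-- `Th3` as a sum of `Th2` -/
lemma Th3_sum (hH1 : H ≤ 1) : Th3 z X H = ∑ p ∈ PX z X, wp p * Th2 z (X - Real.log p) H := by
  rw [Th3_eq (X := X) (by linarith)]
  refine sum_congr rfl fun p hp => ?_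
  have hlp := log_prime_pos (prime_of_mem_PX hp)
  rw [Th2_eq (X := X) (by linarith), mul_sum]
  refine sum_congr rfl fun q _ => ?_
  rw [mul_sum]
  refine sum_congr rfl fun r _ => ?_
  have hiff : (X ≤ Real.log p + (Real.log q + Real.log r) ∧ Real.log p + (Real.log q + Real.log r) < X + H) ↔
      (X - Real.log p ≤ Real.log q + Real.log r ∧ Real.log q + Real.log r < X - Real.log p + H) := by
    constructor
    · rintro ⟨h1, h2⟩; constructor <;> linarith
    · rintro ⟨h1, h2⟩; constructor <;> linarith
  by_cases h : X - Real.log p ≤ Real.log q + Real.log r ∧ Real.log q + Real.log r < X - Real.log p + H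
  · rw [if_pos h, if_pos (hiff.mpr h)]
  · rw [if_neg h, if_neg (fun h' => h (hiff.mp h')), mul_zero]

theorem T_bound (hM : Mert M) (hδ0 : 0 < δ) (hδ1 : δ ≤ 1) (hκ0 : 0 < κ) (hκ1 : κ ≤ 1 / 4)
    (hX : 1 + M ≤ κ * X) (hz : 1 ≤ z) (hzX : Real.log z ≤ κ * X) (hH0 : 0 < H) (hH1 : H ≤ 1)
    (hS : ∀ a, κ * X ≤ a → a ≤ X → |a * th z a H + Th2 z a H - 2 * a * H| ≤ δ * a * H) :
    |Th3 z X H - X ^ 2 / 2 * th z X H| ≤ 21 * (δ + κ) * X ^ 2 * H := by
  have hM0 := hM.nonneg
  have hκX1 : 1 ≤ κ * X := by linarith
  have hX0 : 0 < X := by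
    by_contra h
    rw [not_lt] at h
    nlinarith
  have hX4 : 4 ≤ X := by nlinarith
  have hκX4 : κ * X ≤ X / 4 := by nlinarith
  have hMX : M ≤ κ * X := by linarith
  set P := PX z X with hP
  have hlp : ∀ p ∈ P, 0 < Real.log p := fun p hp => log_prime_pos (prime_of_mem_PX hp)
  have hw : ∀ p, 0 ≤ wp p := wp_nonneg
  -- bounds for th and Th2
  have hf : ∀ b, κ * X ≤ b → b ≤ X → th z b H ≤ 3 * H := by
    intro b h1 h2
    have hb0 : 0 < b := by linarith
    have h3 := (abs_le.mp (hS b h1 h2)).2
    have h4 := Th2_nonneg z b H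
    have h5 : δ * b * H ≤ 1 * b * H := by gcongr
    have h6 : b * th z b H ≤ b * (3 * H) := by linarith
    exact le_of_mul_le_mul_left h6 hb0
  have hT2 : Th2 z X H ≤ 3 * X * H := by
    have h3 := (abs_le.mp (hS X (by linarith) le_rfl)).2
    have h4 := mul_nonneg hX0.le (th_nonneg z X H)
    have h5 : δ * X * H ≤ 1 * X * H := by gcongr
    linarith
  have hT20 := Th2_nonneg z X H
  have hfb : ∀ b, b ≤ X → th z b H = ∑ q ∈ P, if b ≤ Real.log q ∧ Real.log q < b + H then wp q else 0 :=
    fun b hb => th_eq (by linarith)
  -- the sums over all primes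
  have hSX : Sv z X X ≤ 2 * X := by
    have := Sv_le (z := z) (X := X) hM hX0.le
    linarith
  have hSX0 : 0 ≤ Sv z X X := sum_nonneg fun p _ => by split_ifs <;> [exact hw p; exact le_rfl]
  have hSκ : Sv z X (κ * X + H) ≤ 2 * (κ * X) := by
    have := Sv_le (z := z) (X := X) hM (v := κ * X + H) (by linarith)
    linarith
  have hSκ0 : 0 ≤ Sv z X (κ * X + H) := sum_nonneg fun p _ => by split_ifs <;> [exact hw p; exact le_rfl]
  -- splitting
  set L : ℝ := ∑ p ∈ P, if (1 - κ) * X < Real.log p then wp p * Th2 z (X - Real.log p) H else 0 with hL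
  set Sm : ℝ := ∑ p ∈ P, if Real.log p ≤ (1 - κ) * X then wp p * Th2 z (X - Real.log p) H else 0 with hSm
  have hsplit : Th3 z X H = Sm + L := by
    rw [Th3_sum hH1, hSm, hL, ← sum_add_distrib]
    refine sum_congr rfl fun p _ => ?_
    by_cases h : Real.log p ≤ (1 - κ) * X
    · rw [if_pos h, if_neg (not_lt.mpr h), add_zero]
    · rw [if_neg h, if_pos (not_le.mp h), zero_add]
  have hL0 : 0 ≤ L := sum_nonneg fun p _ => by
    split_ifs
    · exact mul_nonneg (hw p) (Th2_nonneg _ _ _)
    · exact le_rfl
  -- the large primes
  have hLle : L ≤ 3 * H * (2 * (κ * X)) ^ 2 := by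
    have h1 : L ≤ ∑ q ∈ P, ∑ r ∈ P, (if Real.log q < κ * X + H then wp q else 0) *
        ((if Real.log r < κ * X + H then wp r else 0) * (3 * H)) := by
      have h2 : L = ∑ q ∈ P, ∑ r ∈ P, ∑ p ∈ P, (if (1 - κ) * X < Real.log p ∧
          (X - Real.log p ≤ Real.log q + Real.log r ∧ Real.log q + Real.log r < X - Real.log p + H) then
            wp p * (wp q * wp r) else 0) := by
        have h3 : L = ∑ p ∈ P, ∑ q ∈ P, ∑ r ∈ P, (if (1 - κ) * X < Real.log p ∧
          (X - Real.log p ≤ Real.log q + Real.log r ∧ Real.log q + Real.log r < X - Real.log p + H) then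
            wp p * (wp q * wp r) else 0) := by
          rw [hL]
          refine sum_congr rfl fun p hp => ?_
          have := hlp p hp
          by_cases h : (1 - κ) * X < Real.log p
          · rw [if_pos h, Th2_eq (X := X) (by linarith), mul_sum]
            refine sum_congr rfl fun q _ => ?_
            rw [mul_sum]
            refine sum_congr rfl fun r _ => ?_
            by_cases h' : X - Real.log p ≤ Real.log q + Real.log r ∧ Real.log q + Real.log r < X - Real.log p + H
            · rw [if_pos h', if_pos ⟨h, h'⟩]
            · rw [if_neg h', if_neg (fun h2 => h' h2.2), mul_zero]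
          · rw [if_neg h]
            symm
            apply sum_eq_zero
            intro q _
            apply sum_eq_zero
            intro r _
            rw [if_neg (fun h2 => h h2.1)]
        rw [h3, sum_comm]
        refine sum_congr rfl fun q _ => ?_
        rw [sum_comm]
      rw [h2]
      refine sum_le_sum fun q hq => sum_le_sum fun r hr => ?_
      have hq0 := hlp q hq
      have hr0 := hlp r hr
      by_cases hqr : Real.log q + Real.log r < κ * X + H
      · rw [if_pos (by linarith), if_pos (by linarith)]
        calc ∑ p ∈ P, (if (1 - κ) * X < Real.log p ∧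
            (X - Real.log p ≤ Real.log q + Real.log r ∧ Real.log q + Real.log r < X - Real.log p + H) then
              wp p * (wp q * wp r) else 0)
            ≤ ∑ p ∈ P, (if (X - (Real.log q + Real.log r)) ≤ Real.log p ∧
                Real.log p < (X - (Real.log q + Real.log r)) + H then wp p else 0) * (wp q * wp r) := by
              refine sum_le_sum fun p _ => ?_
              by_cases h : (1 - κ) * X < Real.log p ∧
                (X - Real.log p ≤ Real.log q + Real.log r ∧ Real.log q + Real.log r < X - Real.log p + H)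
              · rw [if_pos h, if_pos ⟨by linarith [h.2.1], by linarith [h.2.2]⟩]
              · rw [if_neg h]
                apply mul_nonneg
                · split_ifs
                  · exact hw p
                  · exact le_rfl
                · exact mul_nonneg (hw q) (hw r)
          _ = th z (X - (Real.log q + Real.log r)) H * (wp q * wp r) := by
              rw [← sum_mul, hfb _ (by linarith)]
          _ ≤ 3 * H * (wp q * wp r) := by
              apply mul_le_mul_of_nonneg_right _ (mul_nonneg (hw q) (hw r))
              exact hf _ (by linarith) (by linarith)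
          _ = wp q * (wp r * (3 * H)) := by ring
      · have h0 : ∑ p ∈ P, (if (1 - κ) * X < Real.log p ∧
            (X - Real.log p ≤ Real.log q + Real.log r ∧ Real.log q + Real.log r < X - Real.log p + H) then
              wp p * (wp q * wp r) else 0) = 0 := by
          apply sum_eq_zero
          intro p _
          rw [if_neg]
          rintro ⟨h1, -, h3⟩
          linarith
        rw [h0]
        apply mul_nonneg
        · split_ifs
          · exact hw q
          · exact le_rfl
        · apply mul_nonneg
          · split_ifs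
            · exact hw r
            · exact le_rfl
          · positivity
    have h2 : ∑ q ∈ P, ∑ r ∈ P, (if Real.log q < κ * X + H then wp q else 0) *
        ((if Real.log r < κ * X + H then wp r else 0) * (3 * H)) = 3 * H * Sv z X (κ * X + H) ^ 2 := by
      have h3 : ∀ q ∈ P, ∑ r ∈ P, (if Real.log q < κ * X + H then wp q else 0) *
          ((if Real.log r < κ * X + H then wp r else 0) * (3 * H)) =
          (if Real.log q < κ * X + H then wp q else 0) * (Sv z X (κ * X + H) * (3 * H)) := by
        intro q _
        rw [← mul_sum, ← sum_mul]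
        rfl
      rw [sum_congr rfl h3, ← sum_mul]
      change Sv z X (κ * X + H) * (Sv z X (κ * X + H) * (3 * H)) = _
      ring
    rw [h2] at h1
    refine h1.trans ?_
    have h4 : Sv z X (κ * X + H) ^ 2 ≤ (2 * (κ * X)) ^ 2 := pow_le_pow_left₀ hSκ0 hSκ 2
    gcongr
  -- the small primes
  set A1 : ℝ := ∑ p ∈ P, if Real.log p ≤ (1 - κ) * X then wp p * (X - Real.log p) else 0 with hA1
  set A2 : ℝ := ∑ p ∈ P, if Real.log p ≤ (1 - κ) * X then
    wp p * ((X - Real.log p) * th z (X - Real.log p) H) else 0 with hA2
  have hE : |Sm - (2 * H * A1 - A2)| ≤ δ * X * H * (2 * X) := by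
    have h1 : Sm - (2 * H * A1 - A2) = ∑ p ∈ P, if Real.log p ≤ (1 - κ) * X then
        wp p * ((X - Real.log p) * th z (X - Real.log p) H + Th2 z (X - Real.log p) H -
          2 * (X - Real.log p) * H) else 0 := by
      rw [hSm, hA1, hA2, mul_sum, ← sum_sub_distrib, ← sum_sub_distrib]
      refine sum_congr rfl fun p _ => ?_
      split_ifs
      · ring
      · ring
    rw [h1]
    calc |∑ p ∈ P, if Real.log p ≤ (1 - κ) * X then
        wp p * ((X - Real.log p) * th z (X - Real.log p) H + Th2 z (X - Real.log p) H -
          2 * (X - Real.log p) * H) else 0|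
        ≤ ∑ p ∈ P, |if Real.log p ≤ (1 - κ) * X then
        wp p * ((X - Real.log p) * th z (X - Real.log p) H + Th2 z (X - Real.log p) H -
          2 * (X - Real.log p) * H) else 0| := abs_sum_le_sum_abs _ _
      _ ≤ ∑ p ∈ P, δ * X * H * (if Real.log p < X then wp p else 0) := by
          refine sum_le_sum fun p hp => ?_
          have hp0 := hlp p hp
          by_cases h : Real.log p ≤ (1 - κ) * X
          · rw [if_pos h, if_pos (by linarith), abs_mul, abs_of_nonneg (hw p), mul_comm]
            apply mul_le_mul_of_nonneg_right _ (hw p)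
            refine (hS (X - Real.log p) (by linarith) (by linarith)).trans ?_
            gcongr
            linarith
          · rw [if_neg h, abs_zero]
            apply mul_nonneg (by positivity)
            split_ifs
            · exact hw p
            · exact le_rfl
      _ = δ * X * H * Sv z X X := by rw [← mul_sum]; rfl
      _ ≤ δ * X * H * (2 * X) := by gcongr
  -- A1
  have hA1b : |A1 - X ^ 2 / 2| ≤ 5 * (κ * X) * X := by
    have hps := partial_sum (X := X) hM hz hX0.le
    set AQ : ℝ := ∑ p ∈ PX z X, if Real.log p < X then wp p * (X - Real.log p) else 0 with hAQ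
    have h1 : (Real.log z + 2 * M) * X ≤ 3 * (κ * X) * X := by
      gcongr
      linarith
    have h2 : 0 ≤ AQ - A1 ∧ AQ - A1 ≤ κ * X * (2 * X) := by
      have h3 : AQ - A1 = ∑ p ∈ P, if (1 - κ) * X < Real.log p ∧ Real.log p < X then wp p * (X - Real.log p) else 0 := by
        rw [hAQ, hA1, ← sum_sub_distrib]
        refine sum_congr rfl fun p _ => ?_
        by_cases h : Real.log p ≤ (1 - κ) * X
        · rw [if_pos h, if_pos (by linarith), if_neg (fun h' => absurd h'.1 (not_lt.mpr h)), sub_self]
        · rw [if_neg h, sub_zero]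
          rw [not_le] at h
          by_cases h' : Real.log p < X
          · rw [if_pos h', if_pos ⟨h, h'⟩]
          · rw [if_neg h', if_neg (fun h2 => h' h2.2)]
      rw [h3]
      constructor
      · refine sum_nonneg fun p _ => ?_
        split_ifs with h
        · exact mul_nonneg (hw p) (by linarith [h.2])
        · exact le_rfl
      · calc ∑ p ∈ P, (if (1 - κ) * X < Real.log p ∧ Real.log p < X then wp p * (X - Real.log p) else 0)
            ≤ ∑ p ∈ P, κ * X * (if Real.log p < X then wp p else 0) := by
              refine sum_le_sum fun p _ => ?_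
              by_cases h : (1 - κ) * X < Real.log p ∧ Real.log p < X
              · rw [if_pos h, if_pos h.2, mul_comm]
                apply mul_le_mul_of_nonneg_right _ (hw p)
                linarith [h.1]
              · rw [if_neg h]
                apply mul_nonneg (by positivity)
                split_ifs
                · exact hw p
                · exact le_rfl
          _ = κ * X * Sv z X X := by rw [← mul_sum]; rfl
          _ ≤ κ * X * (2 * X) := by gcongr
    rw [abs_le] at hps ⊢
    constructor
    · linarith [hps.1, h2.2]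
    · have : 0 ≤ κ * X * X := by positivity
      linarith [hps.2, h2.1]
  -- A2
  set B : ℝ := ∑ p ∈ P, ∑ q ∈ P, if X ≤ Real.log p + Real.log q ∧ Real.log p + Real.log q < X + H then
    wp p * wp q * Real.log q else 0 with hB
  have hT2s : Th2 z X H = ∑ p ∈ P, ∑ q ∈ P, if X ≤ Real.log p + Real.log q ∧ Real.log p + Real.log q < X + H then
    wp p * wp q else 0 := Th2_eq (by linarith)
  have hBsym : 2 * B = ∑ p ∈ P, ∑ q ∈ P, if X ≤ Real.log p + Real.log q ∧ Real.log p + Real.log q < X + H then
      wp p * wp q * (Real.log p + Real.log q) else 0 := by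
    have h1 : B = ∑ p ∈ P, ∑ q ∈ P, if X ≤ Real.log p + Real.log q ∧ Real.log p + Real.log q < X + H then
      wp p * wp q * Real.log p else 0 := by
      rw [hB, sum_comm]
      refine sum_congr rfl fun p _ => sum_congr rfl fun q _ => ?_
      rw [add_comm (Real.log q) (Real.log p), mul_comm (wp q) (wp p)]
    rw [two_mul]
    nth_rewrite 1 [h1]
    rw [hB, ← sum_add_distrib]
    refine sum_congr rfl fun p _ => ?_
    rw [← sum_add_distrib]
    refine sum_congr rfl fun q _ => ?_
    split_ifs
    · ring
    · ring
  have hBb : X * Th2 z X H ≤ 2 * B ∧ 2 * B ≤ (X + H) * Th2 z X H := by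
    rw [hBsym, hT2s, mul_sum, mul_sum]
    constructor
    · refine sum_le_sum fun p _ => ?_
      rw [mul_sum]
      refine sum_le_sum fun q _ => ?_
      split_ifs with h
      · rw [mul_comm]
        exact mul_le_mul_of_nonneg_left h.1 (mul_nonneg (hw p) (hw q))
      · rw [mul_zero]
    · refine sum_le_sum fun p _ => ?_
      rw [mul_sum]
      refine sum_le_sum fun q _ => ?_
      split_ifs with h
      · rw [mul_comm (X + H)]
        exact mul_le_mul_of_nonneg_left h.2.le (mul_nonneg (hw p) (hw q))
      · rw [mul_zero]
  have hA2s : A2 = ∑ p ∈ P, ∑ q ∈ P, if X ≤ Real.log p + Real.log q ∧ Real.log p + Real.log q < X + H then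
      (if Real.log p ≤ (1 - κ) * X then wp p * wp q * (X - Real.log p) else 0) else 0 := by
    rw [hA2]
    refine sum_congr rfl fun p hp => ?_
    have hp0 := hlp p hp
    by_cases h : Real.log p ≤ (1 - κ) * X
    · rw [if_pos h, hfb _ (by linarith), ← mul_assoc, mul_sum]
      refine sum_congr rfl fun q _ => ?_
      rw [if_pos h]
      by_cases h' : X ≤ Real.log p + Real.log q ∧ Real.log p + Real.log q < X + H
      · rw [if_pos h', if_pos ⟨by linarith [h'.1], by linarith [h'.2]⟩]
        ring
      · rw [if_neg h', if_neg, mul_zero]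
        rintro ⟨h1, h2⟩
        exact h' ⟨by linarith, by linarith⟩
    · rw [if_neg h]
      symm
      apply sum_eq_zero
      intro q _
      rw [if_neg h]
      simp
  have hBA : 0 ≤ B - A2 ∧ B - A2 ≤ H * Th2 z X H + (2 * (κ * X)) * (3 * H * (2 * (κ * X))) := by
    have h1 : B - A2 = ∑ p ∈ P, ∑ q ∈ P, if X ≤ Real.log p + Real.log q ∧ Real.log p + Real.log q < X + H then
        wp p * wp q * (if Real.log p ≤ (1 - κ) * X then (Real.log p + Real.log q - X) else Real.log q) else 0 := by
      rw [hB, hA2s, ← sum_sub_distrib]
      refine sum_congr rfl fun p _ => ?_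
      rw [← sum_sub_distrib]
      refine sum_congr rfl fun q _ => ?_
      split_ifs
      · ring
      · ring
      · ring
    -- the large part
    have h2 : ∑ p ∈ P, ∑ q ∈ P, (if X ≤ Real.log p + Real.log q ∧ Real.log p + Real.log q < X + H then
        (if Real.log q < κ * X + H then wp p * wp q else 0) else 0) ≤ 3 * H * (2 * (κ * X)) := by
      rw [sum_comm]
      calc ∑ q ∈ P, ∑ p ∈ P, (if X ≤ Real.log p + Real.log q ∧ Real.log p + Real.log q < X + H then
          (if Real.log q < κ * X + H then wp p * wp q else 0) else 0)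
          ≤ ∑ q ∈ P, 3 * H * (if Real.log q < κ * X + H then wp q else 0) := by
            refine sum_le_sum fun q hq => ?_
            have hq0 := hlp q hq
            by_cases h : Real.log q < κ * X + H
            · rw [if_pos h]
              calc ∑ p ∈ P, (if X ≤ Real.log p + Real.log q ∧ Real.log p + Real.log q < X + H then
                  (if Real.log q < κ * X + H then wp p * wp q else 0) else 0)
                  = th z (X - Real.log q) H * wp q := by
                    rw [hfb _ (by linarith), sum_mul]
                    refine sum_congr rfl fun p _ => ?_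
                    rw [if_pos h]
                    by_cases h' : X ≤ Real.log p + Real.log q ∧ Real.log p + Real.log q < X + H
                    · rw [if_pos h', if_pos ⟨by linarith [h'.1], by linarith [h'.2]⟩]
                    · rw [if_neg h', if_neg, zero_mul]
                      rintro ⟨h3, h4⟩
                      exact h' ⟨by linarith, by linarith⟩
                _ ≤ 3 * H * wp q := by
                    apply mul_le_mul_of_nonneg_right _ (hw q)
                    exact hf _ (by linarith) (by linarith)
            · rw [if_neg h, mul_zero]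
              apply le_of_eq
              apply sum_eq_zero
              intro p _
              rw [if_neg h]
              simp
        _ = 3 * H * Sv z X (κ * X + H) := by rw [← mul_sum]; rfl
        _ ≤ 3 * H * (2 * (κ * X)) := by gcongr
    constructor
    · rw [h1]
      refine sum_nonneg fun p _ => sum_nonneg fun q hq => ?_
      have hq0 := hlp q hq
      split_ifs with h3 h4
      · exact mul_nonneg (mul_nonneg (hw p) (hw q)) (by linarith [h3.1])
      · exact mul_nonneg (mul_nonneg (hw p) (hw q)) hq0.le
      · exact le_rfl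
    · rw [h1]
      have h3 : ∑ p ∈ P, ∑ q ∈ P, (if X ≤ Real.log p + Real.log q ∧ Real.log p + Real.log q < X + H then
          wp p * wp q * (if Real.log p ≤ (1 - κ) * X then (Real.log p + Real.log q - X) else Real.log q) else 0) ≤
          H * Th2 z X H + (2 * (κ * X)) * ∑ p ∈ P, ∑ q ∈ P,
            (if X ≤ Real.log p + Real.log q ∧ Real.log p + Real.log q < X + H then
            (if Real.log q < κ * X + H then wp p * wp q else 0) else 0) := by
        rw [hT2s, mul_sum, mul_sum, ← sum_add_distrib]
        refine sum_le_sum fun p _ => ?_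
        rw [mul_sum, mul_sum, ← sum_add_distrib]
        refine sum_le_sum fun q hq => ?_
        have hq0 := hlp q hq
        have hpq := mul_nonneg (hw p) (hw q)
        by_cases h : X ≤ Real.log p + Real.log q ∧ Real.log p + Real.log q < X + H
        · rw [if_pos h, if_pos h, if_pos h]
          by_cases h' : Real.log p ≤ (1 - κ) * X
          · rw [if_pos h']
            have h5 : wp p * wp q * (Real.log p + Real.log q - X) ≤ H * (wp p * wp q) := by
              rw [mul_comm H]
              exact mul_le_mul_of_nonneg_left (by linarith [h.2]) hpq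
            have h6 : 0 ≤ 2 * (κ * X) * (if Real.log q < κ * X + H then wp p * wp q else 0) := by
              apply mul_nonneg (by positivity)
              split_ifs
              · exact hpq
              · exact le_rfl
            linarith
          · rw [if_neg h']
            rw [not_le] at h'
            have h7 : Real.log q < κ * X + H := by linarith [h.2]
            rw [if_pos h7]
            have h5 : wp p * wp q * Real.log q ≤ 2 * (κ * X) * (wp p * wp q) := by
              rw [mul_comm (2 * (κ * X))]
              exact mul_le_mul_of_nonneg_left (by linarith) hpq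
            have h6 : 0 ≤ H * (wp p * wp q) := mul_nonneg hH0.le hpq
            linarith
        · rw [if_neg h, if_neg h, if_neg h]
          simp
      refine h3.trans ?_
      gcongr
  -- conclusion
  have hSX' := abs_le.mp (hS X (by linarith) le_rfl)
  have hA1' := abs_le.mp hA1b
  have hE' := abs_le.mp hE
  have hXXH : 0 ≤ X ^ 2 * H := by positivity
  have e1 : X * H ≤ κ * (X ^ 2 * H) := by
    calc X * H = 1 * (X * H) := (one_mul _).symm
      _ ≤ (κ * X) * (X * H) := by gcongr
      _ = κ * (X ^ 2 * H) := by ring
  have e2 : κ ^ 2 * (X ^ 2 * H) ≤ 1 / 4 * (κ * (X ^ 2 * H)) := by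
    calc κ ^ 2 * (X ^ 2 * H) = κ * (κ * (X ^ 2 * H)) := by ring
      _ ≤ 1 / 4 * (κ * (X ^ 2 * H)) := by gcongr
  have e3 : H * Th2 z X H ≤ 3 * (κ * (X ^ 2 * H)) := by
    calc H * Th2 z X H ≤ 1 * (3 * X * H) := by gcongr
      _ = 3 * (X * H) := by ring
      _ ≤ _ := by linarith
  have e4 : 3 * H * (2 * (κ * X)) ^ 2 = 12 * (κ ^ 2 * (X ^ 2 * H)) := by ring
  have e5 : (2 * (κ * X)) * (3 * H * (2 * (κ * X))) = 12 * (κ ^ 2 * (X ^ 2 * H)) := by ring
  have e6 : δ * X * H * (2 * X) = 2 * (δ * (X ^ 2 * H)) := by ring
  have e7 : |2 * H * A1 - X ^ 2 * H| ≤ 10 * (κ * (X ^ 2 * H)) := by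
    have h1 : 2 * H * A1 - X ^ 2 * H = 2 * H * (A1 - X ^ 2 / 2) := by ring
    rw [h1, abs_mul, abs_of_nonneg (by positivity)]
    calc 2 * H * |A1 - X ^ 2 / 2| ≤ 2 * H * (5 * (κ * X) * X) := by gcongr
      _ = 10 * (κ * (X ^ 2 * H)) := by ring
  have e7' := abs_le.mp e7
  have e8 : |X / 2 * (X * th z X H + Th2 z X H - 2 * X * H)| ≤ 1 / 2 * (δ * (X ^ 2 * H)) := by
    rw [abs_mul, abs_of_nonneg (by positivity)]
    calc X / 2 * |X * th z X H + Th2 z X H - 2 * X * H| ≤ X / 2 * (δ * X * H) := by
          gcongr
          exact hS X (by linarith) le_rfl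
      _ = 1 / 2 * (δ * (X ^ 2 * H)) := by ring
  have e8' := abs_le.mp e8
  have e9 : X / 2 * (X * th z X H + Th2 z X H - 2 * X * H) =
      X ^ 2 / 2 * th z X H + X * Th2 z X H / 2 - X ^ 2 * H := by ring
  rw [e9] at e8'
  rw [e4] at hLle
  rw [e5] at hBA
  rw [e6] at hE'
  have hd : 0 ≤ δ * (X ^ 2 * H) := by positivity
  have hk : 0 ≤ κ * (X ^ 2 * H) := by positivity
  have hg : 21 * (δ + κ) * X ^ 2 * H = 21 * (δ * (X ^ 2 * H)) + 21 * (κ * (X ^ 2 * H)) := by ring
  have hXH : (X + H) * Th2 z X H = X * Th2 z X H + H * Th2 z X H := by ring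
  rw [hXH] at hBb
  rw [hsplit, hg, abs_le]
  obtain ⟨hB1, hB2⟩ := hBb
  obtain ⟨hC1, hC2⟩ := hBA
  obtain ⟨hE1, hE2⟩ := hE'
  obtain ⟨hF1, hF2⟩ := e7'
  obtain ⟨hG1, hG2⟩ := e8'
  constructor
  · linarith
  · linarith

end

end Pool.Agent.PW
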