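import Pool.Agent.Helper33.PW.Defs

/-!
# Project PRIMES, windows half: basic lemmas for the sums over primes in windows
-/

set_option autoImplicit false

namespace Pool.Agent.PW

open Finset

lemma mem_PZ {z : ℝ} {N p : ℕ} : p ∈ PZ z N ↔ p < N ∧ p.Prime ∧ z ≤ (p : ℝ) := by
  unfold PZ
  rw [mem_filter, mem_range]

lemma wp_nonneg (p : ℕ) : 0 ≤ wp p := by
  unfold wp
  exact div_nonneg (Real.log_natCast_nonneg p) (Nat.cast_nonneg p)

lemma log_prime_pos {p : ℕ} (hp : p.Prime) : 0 < Real.log p := Real.log_pos (by exact_mod_cast hp.one_lt)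

lemma lt_ceil_of_log {p : ℕ} (hp : p.Prime) {c : ℝ} (h : Real.log p < c) : p < ⌈Real.exp c⌉₊ := by
  rw [Nat.lt_ceil, ← Real.log_lt_iff_lt_exp (by exact_mod_cast hp.pos)]
  exact h

/-- the primes of all the windows up to `X + 1` -/
noncomputable def PX (z X : ℝ) : Finset ℕ := PZ z ⌈Real.exp (X + 1)⌉₊

lemma prime_of_mem_PX {z X : ℝ} {p : ℕ} (hp : p ∈ PX z X) : p.Prime := (mem_PZ.mp hp).2.1

lemma th_eq {z b H X : ℝ} (hb : b + H ≤ X + 1) :
    th z b H = ∑ p ∈ PX z X, if b ≤ Real.log p ∧ Real.log p < b + H then wp p else 0 := by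
  unfold th
  rw [← sum_filter]
  congr 1
  ext p
  unfold PX
  rw [mem_filter, mem_filter, mem_PZ, mem_PZ]
  constructor
  · rintro ⟨⟨-, h2, h3⟩, h4, h5⟩
    exact ⟨⟨lt_ceil_of_log h2 (by linarith), h2, h3⟩, h4, h5⟩
  · rintro ⟨⟨-, h2, h3⟩, h4, h5⟩
    exact ⟨⟨lt_ceil_of_log h2 h5, h2, h3⟩, h4, h5⟩

lemma Th2_eq {z b H X : ℝ} (hb : b + H ≤ X + 1) :
    Th2 z b H = ∑ p ∈ PX z X, ∑ q ∈ PX z X,
      if b ≤ Real.log p + Real.log q ∧ Real.log p + Real.log q < b + H then wp p * wp q else 0 := by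
  unfold Th2
  rw [← sum_product' (s := PX z X) (t := PX z X)
    (f := fun p q : ℕ => if b ≤ Real.log p + Real.log q ∧ Real.log p + Real.log q < b + H then wp p * wp q else 0),
    ← sum_filter]
  congr 1
  ext x
  unfold PX
  rw [mem_filter, mem_filter, mem_product, mem_product, mem_PZ, mem_PZ, mem_PZ, mem_PZ]
  constructor
  · rintro ⟨⟨⟨-, h2, h3⟩, -, h5, h6⟩, h7, h8⟩
    have := log_prime_pos h2
    have := log_prime_pos h5
    exact ⟨⟨⟨lt_ceil_of_log h2 (by linarith), h2, h3⟩, lt_ceil_of_log h5 (by linarith), h5, h6⟩, h7, h8⟩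
  · rintro ⟨⟨⟨-, h2, h3⟩, -, h5, h6⟩, h7, h8⟩
    have := log_prime_pos h2
    have := log_prime_pos h5
    exact ⟨⟨⟨lt_ceil_of_log h2 (by linarith), h2, h3⟩, lt_ceil_of_log h5 (by linarith), h5, h6⟩, h7, h8⟩

lemma Th3_eq {z b H X : ℝ} (hb : b + H ≤ X + 1) :
    Th3 z b H = ∑ p ∈ PX z X, ∑ q ∈ PX z X, ∑ r ∈ PX z X,
      if b ≤ Real.log p + (Real.log q + Real.log r) ∧ Real.log p + (Real.log q + Real.log r) < b + H then
        wp p * (wp q * wp r) else 0 := by
  unfold Th3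
  have h0 : ∑ p ∈ PX z X, ∑ q ∈ PX z X, ∑ r ∈ PX z X,
      (if b ≤ Real.log p + (Real.log q + Real.log r) ∧ Real.log p + (Real.log q + Real.log r) < b + H then
        wp p * (wp q * wp r) else 0) = ∑ x ∈ PX z X ×ˢ (PX z X ×ˢ PX z X),
      (if b ≤ Real.log x.1 + (Real.log x.2.1 + Real.log x.2.2) ∧
        Real.log x.1 + (Real.log x.2.1 + Real.log x.2.2) < b + H then
        wp x.1 * (wp x.2.1 * wp x.2.2) else 0) := by
    rw [sum_product]
    refine sum_congr rfl fun p _ => ?_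
    rw [sum_product]
  rw [h0, ← sum_filter]
  congr 1
  ext x
  unfold PX
  rw [mem_filter, mem_filter, mem_product, mem_product, mem_product, mem_product, mem_PZ, mem_PZ, mem_PZ, mem_PZ,
    mem_PZ, mem_PZ]
  constructor
  · rintro ⟨⟨⟨-, h2, h3⟩, ⟨-, h5, h6⟩, -, h7, h8⟩, h9, h10⟩
    have := log_prime_pos h2
    have := log_prime_pos h5
    have := log_prime_pos h7
    exact ⟨⟨⟨lt_ceil_of_log h2 (by linarith), h2, h3⟩, ⟨lt_ceil_of_log h5 (by linarith), h5, h6⟩,
      lt_ceil_of_log h7 (by linarith), h7, h8⟩, h9, h10⟩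
  · rintro ⟨⟨⟨-, h2, h3⟩, ⟨-, h5, h6⟩, -, h7, h8⟩, h9, h10⟩
    have := log_prime_pos h2
    have := log_prime_pos h5
    have := log_prime_pos h7
    exact ⟨⟨⟨lt_ceil_of_log h2 (by linarith), h2, h3⟩, ⟨lt_ceil_of_log h5 (by linarith), h5, h6⟩,
      lt_ceil_of_log h7 (by linarith), h7, h8⟩, h9, h10⟩

lemma th_nonneg (z b H : ℝ) : 0 ≤ th z b H := sum_nonneg fun _ _ => wp_nonneg _

lemma Th2_nonneg (z b H : ℝ) : 0 ≤ Th2 z b H := sum_nonneg fun _ _ => mul_nonneg (wp_nonneg _) (wp_nonneg _)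

/-! ## Mertens -/

lemma Mert.nonneg {M : ℝ} (hM : Mert M) : 0 ≤ M := (abs_nonneg _).trans (hM 0 0 le_rfl le_rfl)

/-- the sum over `p ∈ PX`, `log p < v` -/
noncomputable def Sv (z X v : ℝ) : ℝ := ∑ p ∈ PX z X, if Real.log p < v then wp p else 0

lemma Sv_le {M z X v : ℝ} (hM : Mert M) (hv : 0 ≤ v) : Sv z X v ≤ v + M := by
  have h1 := (abs_le.mp (hM 0 v le_rfl hv)).2
  rw [sub_zero] at h1
  have h2 : Sv z X v ≤ th 1 0 v := by
    unfold Sv th
    rw [← sum_filter]
    apply sum_le_sum_of_subset_of_nonneg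
    · intro p hp
      rw [mem_filter] at hp
      have hpp := prime_of_mem_PX hp.1
      rw [mem_filter, mem_PZ, zero_add]
      exact ⟨⟨lt_ceil_of_log hpp hp.2, hpp, by exact_mod_cast hpp.one_lt.le⟩, (log_prime_pos hpp).le, hp.2⟩
    · intro p _ _
      exact wp_nonneg p
  linarith

lemma Sv_ge {M z X v : ℝ} (hM : Mert M) (hz : 1 ≤ z) (hv : 0 ≤ v) (hvX : v ≤ X + 1) :
    v - Real.log z - 2 * M ≤ Sv z X v := by
  classical
  have hlz : 0 ≤ Real.log z := Real.log_nonneg hz
  have h1 := (abs_le.mp (hM 0 v le_rfl hv)).1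
  have h2 := (abs_le.mp (hM 0 (Real.log z) le_rfl hlz)).2
  rw [sub_zero] at h1 h2
  have h3 : th 1 0 v ≤ Sv z X v + th 1 0 (Real.log z) := by
    unfold Sv th
    rw [← sum_filter]
    set F := (PZ 1 ⌈Real.exp (0 + v)⌉₊).filter (fun p : ℕ => 0 ≤ Real.log p ∧ Real.log p < 0 + v) with hF
    set F1 := (PX z X).filter (fun p : ℕ => Real.log p < v) with hF1
    set F2 := (PZ 1 ⌈Real.exp (0 + Real.log z)⌉₊).filter (fun p : ℕ => 0 ≤ Real.log p ∧ Real.log p < 0 + Real.log z) with hF2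
    have hsub : F ⊆ F1 ∪ F2 := by
      intro p hp
      rw [hF, mem_filter, mem_PZ, zero_add] at hp
      obtain ⟨⟨-, hpp, -⟩, h4, h5⟩ := hp
      have hp0 : (0 : ℝ) < p := by exact_mod_cast hpp.pos
      rw [mem_union]
      by_cases h6 : z ≤ (p : ℝ)
      · left
        rw [hF1, mem_filter]
        exact ⟨mem_PZ.mpr ⟨lt_ceil_of_log hpp (by linarith), hpp, h6⟩, h5⟩
      · right
        rw [not_le] at h6
        have h7 : Real.log p < Real.log z := Real.log_lt_log hp0 h6
        rw [hF2, mem_filter, mem_PZ, zero_add]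
        exact ⟨⟨lt_ceil_of_log hpp h7, hpp, by exact_mod_cast hpp.one_lt.le⟩, h4, h7⟩
    have h8 : ∑ p ∈ F, wp p ≤ ∑ p ∈ F1 ∪ F2, wp p :=
      sum_le_sum_of_subset_of_nonneg hsub fun p _ _ => wp_nonneg p
    have h9 := sum_union_inter (s₁ := F1) (s₂ := F2) (f := wp)
    have h10 : 0 ≤ ∑ p ∈ F1 ∩ F2, wp p := sum_nonneg fun p _ => wp_nonneg p
    linarith
  linarith

/-! ## Partial summation -/

lemma int_step {c X : ℝ} (w : ℝ) (hc : 0 ≤ c) :
    IntervalIntegrable (fun u : ℝ => if c < u then w else 0) MeasureTheory.volume 0 X ∧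
    (0 ≤ X → ∫ u in (0 : ℝ)..X, (if c < u then w else 0) = if c < X then w * (X - c) else 0) := by
  have e1 : (fun u : ℝ => if c < u then w else 0) = (Set.Ioi c).indicator (fun _ => w) := by
    funext u
    rw [Set.indicator_apply]
    rfl
  rw [e1]
  constructor
  · apply MeasureTheory.IntegrableOn.intervalIntegrable
    apply MeasureTheory.IntegrableOn.indicator _ measurableSet_Ioi
    exact MeasureTheory.integrableOn_const (by
      rw [Set.uIcc]
      exact (measure_Icc_lt_top).ne)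
  · intro hX
    rw [intervalIntegral.integral_of_le hX, MeasureTheory.setIntegral_indicator measurableSet_Ioi,
      MeasureTheory.setIntegral_const, smul_eq_mul]
    by_cases h : c < X
    · rw [if_pos h]
      have e2 : Set.Ioc 0 X ∩ Set.Ioi c = Set.Ioc c X := by
        ext u
        simp only [Set.mem_inter_iff, Set.mem_Ioc, Set.mem_Ioi]
        constructor
        · rintro ⟨⟨-, h2⟩, h3⟩
          exact ⟨h3, h2⟩
        · rintro ⟨h2, h3⟩
          exact ⟨⟨by linarith, h3⟩, h2⟩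
      rw [e2, Real.volume_real_Ioc_of_le h.le]
      ring
    · rw [if_neg h]
      have e2 : Set.Ioc 0 X ∩ Set.Ioi c = ∅ := by
        ext u
        simp only [Set.mem_inter_iff, Set.mem_Ioc, Set.mem_Ioi, Set.mem_empty_iff_false, iff_false, not_and, not_lt]
        rintro ⟨-, h2⟩
        linarith
      rw [e2]
      simp

/-- `∑ (log p / p) (X - log p) = X² / 2 + O(...)` -/
lemma partial_sum {M z X : ℝ} (hM : Mert M) (hz : 1 ≤ z) (hX : 0 ≤ X) :
    |(∑ p ∈ PX z X, if Real.log p < X then wp p * (X - Real.log p) else 0) - X ^ 2 / 2| ≤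
      (Real.log z + 2 * M) * X := by
  have hM0 := hM.nonneg
  have hlz : 0 ≤ Real.log z := Real.log_nonneg hz
  have hint : ∀ p ∈ PX z X, IntervalIntegrable (fun u : ℝ => if Real.log p < u then wp p else 0)
      MeasureTheory.volume 0 X := fun p hp => (int_step (wp p) (log_prime_pos (prime_of_mem_PX hp)).le).1
  have h1 : ∫ u in (0 : ℝ)..X, Sv z X u =
      ∑ p ∈ PX z X, if Real.log p < X then wp p * (X - Real.log p) else 0 := by
    unfold Sv
    rw [intervalIntegral.integral_finset_sum hint]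
    exact sum_congr rfl fun p hp => (int_step (wp p) (log_prime_pos (prime_of_mem_PX hp)).le).2 hX
  have hSint : IntervalIntegrable (fun u => Sv z X u) MeasureTheory.volume 0 X := by
    unfold Sv
    have := IntervalIntegrable.sum (PX z X) hint
    refine this.congr ?_
    intro u _
    rw [Finset.sum_apply]
  rw [← h1]
  have hup : ∫ u in (0 : ℝ)..X, Sv z X u ≤ ∫ u in (0 : ℝ)..X, (u + M) := by
    apply intervalIntegral.integral_mono_on hX hSint (Continuous.intervalIntegrable (by fun_prop) _ _)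
    intro u hu
    exact Sv_le hM hu.1
  have hlo : ∫ u in (0 : ℝ)..X, (u + (-(Real.log z + 2 * M))) ≤ ∫ u in (0 : ℝ)..X, Sv z X u := by
    apply intervalIntegral.integral_mono_on hX (Continuous.intervalIntegrable (by fun_prop) _ _) hSint
    intro u hu
    have := Sv_ge (z := z) (X := X) hM hz hu.1 (by linarith [hu.2])
    linarith
  have i1 : ∀ c : ℝ, ∫ u in (0 : ℝ)..X, (u + c) = X ^ 2 / 2 + c * X := by
    intro c
    rw [intervalIntegral.integral_add (Continuous.intervalIntegrable (by fun_prop) _ _)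
      (Continuous.intervalIntegrable (by fun_prop) _ _), integral_id, intervalIntegral.integral_const,
      smul_eq_mul]
    ring
  rw [i1] at hup hlo
  rw [abs_le]
  constructor
  · linarith
  · nlinarith

end Pool.Agent.PW
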